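import Pool.Agent.TH992.L.UpTail
import Pool.Agent.TH992.L.IoSlow
import Pool.Agent.TH992.L.IoFast
import Pool.Agent.H984R3.Per.UpPi
import Pool.Agent.H984R3.Per.LowEV
import Pool.Agent.H985R3.TA.Main
import Pool.Agent.H985R3.TA.STA

/-!
# Laws of the iterated logarithm for the exploration path of critical bond percolation on `ℤ²`

Critical bond percolation on `ℤ × ℕ`, the edges `[x, x + 1]` of the real axis open for `x < 0` and
closed for `x ≥ 0`. The exploration path starts next to the origin and keeps the open cluster `C_-`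
of the negative half-axis on its left; `gam ω k` is its point after `k` steps and `reach n ω` is its
greatest distance from the origin in the first `n` steps.

Almost surely `reach n ω` and `|gam ω n|` are at most `C n ^ (4/7) (log log n) ^ (3/7)` for all
large `n` and at least `c n ^ (4/7) (log log n) ^ (3/7)` for infinitely many `n`, and `reach n ω` is
at least `c n ^ (4/7) (log log n) ^ (-1/14)` for all large `n` and at most
`C n ^ (4/7) (log log n) ^ (-1/14)` for infinitely many `n`.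

Definitions: `Pool.Agent.H984R4.HN.HPDefs` (`Conf`, `perc`, `opn`, `step`, `path`, `place`, `gam`,
`reach`).
-/

namespace Pool.Agent.Results.MP_6c8efb_pr.IteratedLogarithm

open H984H MeasureTheory Filter Topology

/-- The two-arm bounds used below. -/
theorem inputs : (∃ c : ℝ, 0 < c ∧ H984P.LowA c (1/4)) ∧
    (∃ C : ℝ, 0 < C ∧ H342P.TwoUp C (1/4)) := by
  refine ⟨?_, ?_⟩
  · obtain ⟨B, m0, κ, hκ, h⟩ := H985T.EV_lower
    obtain ⟨c, hc, h2⟩ := H984P.lowA_of_EV (B := B) (m0 := m0) (s := 1/4) hκ (by norm_num)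
      (fun m hm => by
        obtain ⟨ρ, c, s, c', f0, h1, h2, h3⟩ := h m hm
        exact ⟨ρ, c, s, c', f0, h2, h1, h3⟩)
    exact ⟨c, hc, h2⟩
  · obtain ⟨C, hC, h⟩ := H985T.pi2_upper
    exact ⟨C, hC, H984P.twoUp_of_pi2 hC (by norm_num) h⟩

theorem result : ∃ c C : ℝ, 0 < c ∧ 0 < C ∧ ∀ᵐ ω ∂perc,
    (∀ᶠ n : ℕ in atTop,
      reach n ω ≤ C * (n : ℝ) ^ (4/7 : ℝ) * (Real.log (Real.log n)) ^ (3/7 : ℝ)) ∧
    (∃ᶠ n : ℕ in atTop,
      c * (n : ℝ) ^ (4/7 : ℝ) * (Real.log (Real.log n)) ^ (3/7 : ℝ) ≤ ‖gam ω n‖) ∧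
    (∀ᶠ n : ℕ in atTop,
      c * (n : ℝ) ^ (4/7 : ℝ) / (Real.log (Real.log n)) ^ (1/14 : ℝ) ≤ reach n ω) ∧
    (∃ᶠ n : ℕ in atTop,
      reach n ω ≤ C * (n : ℝ) ^ (4/7 : ℝ) / (Real.log (Real.log n)) ^ (1/14 : ℝ)) := by
  obtain ⟨⟨c0, hc0, hL⟩, ⟨C0, hC0, hU⟩⟩ := inputs
  obtain ⟨a, A, ha, hA, htail⟩ := TH992.L.up_tail hc0 hC0 hL hU
  obtain ⟨C1, hC1, h1⟩ := TH992.L.ev_up ha hA htail
  obtain ⟨c2, hc2, h2⟩ := TH992.L.io_fast hC0 hU
  obtain ⟨c3, hc3, h3⟩ := TH992.L.ev_low hC0 hU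
  obtain ⟨C4, hC4, h4⟩ := TH992.L.io_slow hc0 hL hC0 hU
  refine ⟨min c2 c3, max C1 C4, lt_min hc2 hc3, lt_of_lt_of_le hC1 (le_max_left _ _), ?_⟩
  have hpos : ∀ᶠ n : ℕ in atTop, 0 < Real.log (Real.log (n : ℝ)) := by
    have h := Real.tendsto_log_atTop.comp (Real.tendsto_log_atTop.comp
      (tendsto_natCast_atTop_atTop (R := ℝ)))
    exact h.eventually_gt_atTop 0
  filter_upwards [h1, h2, h3, h4] with ω g1 g2 g3 g4
  unfold TH992.L.ll at g1 g2 g3 g4
  refine ⟨?_, ?_, ?_, ?_⟩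
  · filter_upwards [g1, hpos] with n hn hp
    refine hn.trans ?_
    have : C1 ≤ max C1 C4 := le_max_left _ _
    gcongr
  · refine (g2.and_eventually hpos).mono fun n hn => ?_
    refine le_trans ?_ hn.1
    have h5 := hn.2
    have : min c2 c3 ≤ c2 := min_le_left _ _
    gcongr
  · filter_upwards [g3, hpos] with n hn hp
    refine le_trans ?_ hn
    have : min c2 c3 ≤ c3 := min_le_right _ _
    gcongr
  · refine (g4.and_eventually hpos).mono fun n hn => ?_
    refine hn.1.trans ?_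
    have h5 := hn.2
    have : C4 ≤ max C1 C4 := le_max_right _ _
    gcongr

end Pool.Agent.Results.MP_6c8efb_pr.IteratedLogarithm
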