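import Pool.Agent.TH990.HP.Fix
import Pool.Agent.W424.KI.Fin
import Pool.Agent.Results.MP_6c8efb_pr.Displacement
import Pool.Agent.Results.MP_6c8efb_pr.UniformDimension

/-!
# The half-plane exploration path of critical bond percolation: double points, sides, fixed sets

Critical bond percolation on `ℤ × ℕ`, the edges `[x, x + 1]` of the real axis open for `x < 0` and
closed for `x ≥ 0`. The exploration path starts next to the origin and keeps the open cluster `C_-`
of the negative half-axis on its left; `gam ω k` is its point after `k` steps, and `curve n ω` is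
the path `n ^ (-4/7) γ(n t)`, `0 ≤ t ≤ 1`, with law `lawH n`. Weak limits exist along a subsequence of
every sequence `n → ∞`.

For every weak limit and every fixed set `T` (no measurability is assumed), almost surely:
* the points of `T ∩ upperHalf` on the curve form a set of dimension at most `dimH T - 1/4`, and there are
  none if the `1/4`-dimensional Hausdorff measure of `T` is zero;
* the double points in `T ∩ upperHalf` form a set of dimension at most `dimH T - 5/4`, and there are none if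
  the `5/4`-dimensional Hausdorff measure of `T` is zero;
* the points of `T ∩ upperHalf` which, for the curve stopped at some time `t` (all times simultaneously),
  lie on the boundary of a component of the complement of the past and are not the current point,
  form a set of dimension at most `dimH T - 2/3`, and there are none if the `2/3`-dimensional
  Hausdorff measure of `T` is zero;
* the corresponding sets of times have dimension at most `4/7` of these values.
(Differences in `[0, ∞]` are truncated at `0`.) For `T = ℂ`: almost surely the double points have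
dimension at most `3/4` (times: `3/7`), the sides of the past at all times have dimension at most
`4/3` (times: `16/21`). For a Lipschitz curve: dimension at most `3/4` for the trace, no double
points, dimension at most `1/3` for the sides.

Definitions: `Pool.Agent.H984R4.HN.HPDefs` (`Conf`, `perc`, `opn`, `step`, `path`, `place`, `gam`,
`curve`), `Pool.Agent.H984R4.HN.FinalH` (`lawH`), `Pool.Agent.H984R4.NP.Model` (`pl`, `clamp`).

Used from the starting files: the sharp two-, three- and four-arm bounds in annuli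
(`Pool.Agent.H985R3.TA`, `Pool.Agent.W424.KI.Fin`, `Pool.Agent.W347.DPAA`, `Pool.Agent.W571.DPad`), the
deterministic part for double points (`Pool.Agent.W92.DP.Dich`), the uniform dimension theorem.
-/

set_option autoImplicit false

namespace Pool.Agent.Results.MP_6c8efb_pr.SpecialPoints

open H984H MeasureTheory Filter Topology
open scoped ENNReal NNReal

/-- The open upper half-plane. -/
def upperHalf : Set ℂ := {w | 0 < w.im}

/-- The points which a curve visits at least twice. -/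
def doublePoints (f : C(unitInterval, ℂ)) : Set ℂ :=
  {z | ∃ s t : unitInterval, s < t ∧ f s = z ∧ f t = z}

/-- The union of the boundaries of all connected components of the complement of `K`. -/
def sides (K : Set ℂ) : Set ℂ := ⋃ x : ℂ, frontier (connectedComponentIn Kᶜ x)

/-- The points which at some time `t` lie on the boundary of a component of the complement of the
past `f [0, t]` and are different from the current point `f t`. -/
def sweptSides (f : C(unitInterval, ℂ)) : Set ℂ :=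
  {w | ∃ t : unitInterval, w ∈ sides (f '' Set.Icc 0 t) ∧ w ≠ f t}

/-- The times at which `f` is in `S`. -/
def times (f : C(unitInterval, ℂ)) (S : Set ℂ) : Set unitInterval := {s | f s ∈ S}

theorem ofR (a b : ℝ) (hb : 0 < b) : ENNReal.ofReal (a / b) = ENNReal.ofReal a / ENNReal.ofReal b :=
  ENNReal.ofReal_div_of_pos hb

theorem e14 : ENNReal.ofReal (1 / 4) = 1 / 4 := by
  rw [ofR _ _ (by norm_num)]; norm_num

theorem e54 : ENNReal.ofReal (5 / 4) = 5 / 4 := by
  rw [ofR _ _ (by norm_num)]; norm_num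

theorem e23 : ENNReal.ofReal (2 / 3) = 2 / 3 := by
  rw [ofR _ _ (by norm_num)]; norm_num

/-- Every double point of a curve which is not constant on intervals has an excursion. -/
theorem dbl_sub {f : C(unitInterval, ℂ)} (hf : ∀ s t : unitInterval, s < t →
    dimH (f '' Set.Icc s t) = 7 / 4) :
    doublePoints f ⊆ ⋃ n : ℕ, Pool.Agent.W92.DP.DPt (1 / ((n : ℝ) + 1)) f := by
  rintro z ⟨s, t, hst, h1, h2⟩
  have h3 : ∃ u ∈ Set.Icc s t, f u ≠ z := by
    by_contra hcon
    push Not at hcon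
    have h4 : f '' Set.Icc s t ⊆ {z} := by
      rintro w ⟨u, hu, rfl⟩
      exact hcon u hu
    have h5 := dimH_mono h4
    rw [hf s t hst, dimH_singleton] at h5
    exact absurd h5 (not_le.2 (ENNReal.div_pos (by norm_num) (by norm_num)))
  obtain ⟨u, ⟨hu1, hu2⟩, hu⟩ := h3
  obtain ⟨n, hn⟩ := exists_nat_one_div_lt (dist_pos.2 hu)
  exact Set.mem_iUnion.2 ⟨n, s, u, t, hu1, hu2, h1, h2, hn.le⟩

open Pool.Agent.TH990.HP in
theorem range_mT (f : C(unitInterval, ℂ)) (t : unitInterval) :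
    Set.range (f.comp (mT t)) = f '' Set.Icc 0 t := by
  ext w
  constructor
  · rintro ⟨s, rfl⟩
    refine ⟨t * s, ⟨unitInterval.nonneg', ?_⟩, rfl⟩
    exact Subtype.coe_le_coe.1 (mul_le_of_le_one_right t.2.1 s.2.2)
  · rintro ⟨s, ⟨-, hs⟩, rfl⟩
    rcases eq_or_lt_of_le t.2.1 with h | h
    · refine ⟨0, ?_⟩
      show f (t * 0) = f s
      rw [mul_zero]
      congr 1
      apply Subtype.ext
      have h1 : (s : ℝ) ≤ t := hs
      have h2 : (0 : ℝ) ≤ s := s.2.1
      have h3 : ((0 : unitInterval) : ℝ) = 0 := rfl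
      rw [h3]
      linarith
    · refine ⟨⟨s / t, div_nonneg s.2.1 t.2.1, (div_le_one h).2 hs⟩, ?_⟩
      show f (t * _) = f s
      congr 1
      apply Subtype.ext
      rw [Set.Icc.coe_mul]
      show (t : ℝ) * (s / t) = s
      field_simp

open Pool.Agent.TH990.HP in
theorem swept_sub (f : C(unitInterval, ℂ)) :
    sweptSides f ⊆ ⋃ i : ℕ, AccT (1 / ((i:ℝ) + 1)) f := by
  rintro w ⟨t, hw, hwt⟩
  have hmem : w ∈ f '' Set.Icc 0 t := by
    obtain ⟨x, hx⟩ := Set.mem_iUnion.1 hw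
    by_contra hcon
    have hK : IsClosed (f '' Set.Icc 0 t) := (isCompact_Icc.image f.continuous).isClosed
    have h1 : w ∈ closure (connectedComponentIn (f '' Set.Icc 0 t)ᶜ x) := hx.1
    have hopen : IsOpen (connectedComponentIn (f '' Set.Icc 0 t)ᶜ w) :=
      hK.isOpen_compl.connectedComponentIn
    obtain ⟨y, hy1, hy2⟩ := mem_closure_iff.1 h1 _ hopen (mem_connectedComponentIn hcon)
    have h3 := connectedComponentIn_eq hy1
    have h4 := connectedComponentIn_eq hy2
    have h5 : w ∈ connectedComponentIn (f '' Set.Icc 0 t)ᶜ x := by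
      rw [h4, ← h3]
      exact mem_connectedComponentIn hcon
    have h6 : IsOpen (connectedComponentIn (f '' Set.Icc 0 t)ᶜ x) :=
      hK.isOpen_compl.connectedComponentIn
    have h7 := hx.2
    rw [h6.interior_eq] at h7
    exact h7 h5
  rw [← range_mT] at hmem
  obtain ⟨s, hs⟩ := hmem
  have hne : ∃ s s', f.comp (mT t) s ≠ f.comp (mT t) s' := by
    refine ⟨s, 1, ?_⟩
    rw [hs]
    show w ≠ f (t * 1)
    rw [mul_one]
    exact hwt
  unfold sides at hw
  rw [← range_mT] at hw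
  obtain ⟨i, hi⟩ := Set.mem_iUnion.1 (Pool.Agent.TH990.FU.frontiers_acc hne hw)
  obtain ⟨j, hj⟩ := exists_nat_one_div_lt (dist_pos.2 hwt)
  refine Set.mem_iUnion.2 ⟨max i j, t, ?_, ?_⟩
  · exact Pool.Agent.TH990.FU.Acc_anti (Nat.one_div_le_one_div (le_max_left i j)) _ hi
  · refine (Nat.one_div_le_one_div (le_max_right i j)).trans ?_
    rw [dist_comm]
    exact hj.le

theorem solve {x y : ℝ≥0∞} (h : 7 / 4 * x ≤ y) : x ≤ 4 / 7 * y := by
  have e2 : (4 / 7 : ℝ≥0∞) * (7 / 4) = 1 := by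
    have a1 : (4 / 7 : ℝ≥0∞) = ENNReal.ofReal (4 / 7) := by
      rw [ofR _ _ (by norm_num)]; norm_num
    have a2 : (7 / 4 : ℝ≥0∞) = ENNReal.ofReal (7 / 4) := by
      rw [ofR _ _ (by norm_num)]; norm_num
    rw [a1, a2, ← ENNReal.ofReal_mul (by norm_num)]
    norm_num
  calc x = 4 / 7 * (7 / 4 * x) := by rw [← mul_assoc, e2, one_mul]
    _ ≤ 4 / 7 * y := by gcongr

theorem lip_dim {K : ℝ≥0} {f : ℝ → ℂ} (hf : LipschitzWith K f) : dimH (Set.range f) ≤ 1 := by
  have h := hf.dimH_range_le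
  rwa [Real.dimH_univ] at h

theorem lip_null {K : ℝ≥0} {f : ℝ → ℂ} (hf : LipschitzWith K f) : μH[5 / 4] (Set.range f) = 0 := by
  have h2 : dimH (Set.range f) < ((5 / 4 : ℝ≥0) : ℝ≥0∞) := by
    refine lt_of_le_of_lt (lip_dim hf) ?_
    rw [← ENNReal.coe_one, ENNReal.coe_lt_coe]
    norm_num
  have h3 := hausdorffMeasure_of_dimH_lt h2
  have e : (((5 / 4 : ℝ≥0) : ℝ)) = 5 / 4 := by push_cast; ring
  rwa [e] at h3

theorem sub_ofReal {a b : ℝ} (hb : 0 ≤ b) : ENNReal.ofReal a - ENNReal.ofReal b =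
    ENNReal.ofReal (a - b) := (ENNReal.ofReal_sub _ hb).symm

theorem e13 : (1 : ℝ≥0∞) - 2 / 3 = 1 / 3 := by
  rw [← e23, ← ENNReal.ofReal_one, sub_ofReal (by norm_num),
    show (1 : ℝ) - 2 / 3 = 1 / 3 by norm_num, ofR _ _ (by norm_num)]
  norm_num

theorem e34 : (1 : ℝ≥0∞) - 1 / 4 = 3 / 4 := by
  rw [← e14, ← ENNReal.ofReal_one, sub_ofReal (by norm_num),
    show (1 : ℝ) - 1 / 4 = 3 / 4 by norm_num, ofR _ _ (by norm_num)]
  norm_num

theorem e34' : (2 : ℝ≥0∞) - 5 / 4 = 3 / 4 := by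
  rw [← e54, show (2 : ℝ≥0∞) = ENNReal.ofReal 2 by norm_num, sub_ofReal (by norm_num),
    show (2 : ℝ) - 5 / 4 = 3 / 4 by norm_num, ofR _ _ (by norm_num)]
  norm_num

theorem e43 : (2 : ℝ≥0∞) - 2 / 3 = 4 / 3 := by
  rw [← e23, show (2 : ℝ≥0∞) = ENNReal.ofReal 2 by norm_num, sub_ofReal (by norm_num),
    show (2 : ℝ) - 2 / 3 = 4 / 3 by norm_num, ofR _ _ (by norm_num)]
  norm_num

theorem e47 : (4 / 7 : ℝ≥0∞) = ENNReal.ofReal (4 / 7) := by
  rw [ofR _ _ (by norm_num)]; norm_num

theorem e37 : (4 / 7 : ℝ≥0∞) * (3 / 4) = 3 / 7 := by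
  rw [e47, show (3 / 4 : ℝ≥0∞) = ENNReal.ofReal (3 / 4) by rw [ofR _ _ (by norm_num)]; norm_num,
    ← ENNReal.ofReal_mul (by norm_num), show (4 / 7 * (3 / 4) : ℝ) = 3 / 7 by norm_num,
    ofR _ _ (by norm_num)]
  norm_num

theorem e1621 : (4 / 7 : ℝ≥0∞) * (4 / 3) = 16 / 21 := by
  rw [e47, show (4 / 3 : ℝ≥0∞) = ENNReal.ofReal (4 / 3) by rw [ofR _ _ (by norm_num)]; norm_num,
    ← ENNReal.ofReal_mul (by norm_num), show (4 / 7 * (4 / 3) : ℝ) = 16 / 21 by norm_num,
    ofR _ _ (by norm_num)]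
  norm_num

theorem dimC : dimH (Set.univ : Set ℂ) = 2 := by
  rw [Real.dimH_univ_eq_finrank ℂ, Complex.finrank_real_complex]
  norm_num

theorem result :
    (∀ φ : ℕ → ℕ, Tendsto φ atTop atTop → ∃ ψ : ℕ → ℕ, StrictMono ψ ∧
      ∃ μ : ProbabilityMeasure C(unitInterval, ℂ),
        Tendsto (fun i => lawH (φ (ψ i))) atTop (𝓝 μ)) ∧
    (∀ φ : ℕ → ℕ, Tendsto φ atTop atTop → ∀ μ : ProbabilityMeasure C(unitInterval, ℂ),
      Tendsto (fun i => lawH (φ i)) atTop (𝓝 μ) →
      (∀ T : Set ℂ, ∀ᵐ f : C(unitInterval, ℂ) ∂(μ : Measure C(unitInterval, ℂ)),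
        dimH (Set.range f ∩ T ∩ upperHalf) ≤ dimH T - 1 / 4 ∧
        dimH (times f (T ∩ upperHalf)) ≤ 4 / 7 * (dimH T - 1 / 4) ∧
        (μH[1 / 4] T = 0 → Set.range f ∩ T ∩ upperHalf = ∅) ∧
        dimH (doublePoints f ∩ T ∩ upperHalf) ≤ dimH T - 5 / 4 ∧
        dimH (times f (doublePoints f ∩ T ∩ upperHalf)) ≤ 4 / 7 * (dimH T - 5 / 4) ∧
        (μH[5 / 4] T = 0 → doublePoints f ∩ T ∩ upperHalf = ∅) ∧
        dimH (sweptSides f ∩ T ∩ upperHalf) ≤ dimH T - 2 / 3 ∧
        dimH (times f (sweptSides f ∩ T ∩ upperHalf)) ≤ 4 / 7 * (dimH T - 2 / 3) ∧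
        (μH[2 / 3] T = 0 → sweptSides f ∩ T ∩ upperHalf = ∅)) ∧
      (∀ᵐ f : C(unitInterval, ℂ) ∂(μ : Measure C(unitInterval, ℂ)),
        dimH (doublePoints f ∩ upperHalf) ≤ 3 / 4 ∧
        dimH (times f (doublePoints f ∩ upperHalf)) ≤ 3 / 7 ∧
        dimH (sweptSides f ∩ upperHalf) ≤ 4 / 3 ∧
        dimH (times f (sweptSides f ∩ upperHalf)) ≤ 16 / 21) ∧
      (∀ (K : ℝ≥0) (g : ℝ → ℂ), LipschitzWith K g →
        ∀ᵐ f : C(unitInterval, ℂ) ∂(μ : Measure C(unitInterval, ℂ)),
        dimH (Set.range f ∩ Set.range g ∩ upperHalf) ≤ 3 / 4 ∧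
        doublePoints f ∩ Set.range g ∩ upperHalf = ∅ ∧
        dimH (sweptSides f ∩ Set.range g ∩ upperHalf) ≤ 1 / 3)) := by
  refine ⟨UniformDimension.result.1, fun φ hφ μ hμ => ?_⟩
  have key : ∀ T : Set ℂ, ∀ᵐ f : C(unitInterval, ℂ) ∂(μ : Measure C(unitInterval, ℂ)),
        dimH (Set.range f ∩ T ∩ upperHalf) ≤ dimH T - 1 / 4 ∧
        dimH (times f (T ∩ upperHalf)) ≤ 4 / 7 * (dimH T - 1 / 4) ∧
        (μH[1 / 4] T = 0 → Set.range f ∩ T ∩ upperHalf = ∅) ∧
        dimH (doublePoints f ∩ T ∩ upperHalf) ≤ dimH T - 5 / 4 ∧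
        dimH (times f (doublePoints f ∩ T ∩ upperHalf)) ≤ 4 / 7 * (dimH T - 5 / 4) ∧
        (μH[5 / 4] T = 0 → doublePoints f ∩ T ∩ upperHalf = ∅) ∧
        dimH (sweptSides f ∩ T ∩ upperHalf) ≤ dimH T - 2 / 3 ∧
        dimH (times f (sweptSides f ∩ T ∩ upperHalf)) ≤ 4 / 7 * (dimH T - 2 / 3) ∧
        (μH[2 / 3] T = 0 → sweptSides f ∩ T ∩ upperHalf = ∅) := by
    intro T
    filter_upwards [UniformDimension.result.2 φ hφ μ hμ,
      Displacement.result.2.2.2.2.2 φ hφ μ hμ,
      Pool.Agent.TH990.HP.fix2 hφ hμ T,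
      Pool.Agent.TH990.HP.fix4 hφ hμ T,
      Pool.Agent.TH990.HP.fix3 Pool.Agent.W424.KI.u3 hφ hμ T] with f hf hq ht hd ha
    obtain ⟨-, -, -, hdim, -⟩ := hq
    rw [e14] at ht
    rw [e54] at hd
    rw [e23] at ha
    have hs1 : doublePoints f ∩ T ∩ upperHalf ⊆
        (⋃ i : ℕ, Pool.Agent.W92.DP.DPt (1 / ((i:ℝ) + 1)) f) ∩ T ∩ Pool.Agent.TH990.HP.Hp :=
      Set.inter_subset_inter_left _ (Set.inter_subset_inter_left _ (dbl_sub hdim))
    have hs2 : sweptSides f ∩ T ∩ upperHalf ⊆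
        (⋃ i : ℕ, Pool.Agent.TH990.HP.AccT (1 / ((i:ℝ) + 1)) f) ∩ T ∩ Pool.Agent.TH990.HP.Hp :=
      Set.inter_subset_inter_left _ (Set.inter_subset_inter_left _ (swept_sub f))
    have ht1 : dimH (Set.range f ∩ T ∩ upperHalf) ≤ dimH T - 1 / 4 := ht.1
    have hd1 : dimH (doublePoints f ∩ T ∩ upperHalf) ≤ dimH T - 5 / 4 := (dimH_mono hs1).trans hd.1
    have ha1 : dimH (sweptSides f ∩ T ∩ upperHalf) ≤ dimH T - 2 / 3 := (dimH_mono hs2).trans ha.1
    have htime : ∀ S : Set ℂ, 7 / 4 * dimH (times f S) ≤ dimH (Set.range f ∩ S) := by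
      intro S
      rw [← hf (times f S)]
      apply dimH_mono
      rintro _ ⟨s, hs, rfl⟩
      exact ⟨⟨s, rfl⟩, hs⟩
    refine ⟨ht1, solve ((htime _).trans ?_), ht.2, hd1,
      solve ((htime _).trans ((dimH_mono Set.inter_subset_right).trans hd1)),
      fun hT => Set.subset_empty_iff.1 (hs1.trans (hd.2 hT).le), ha1,
      solve ((htime _).trans ((dimH_mono Set.inter_subset_right).trans ha1)),
      fun hT => Set.subset_empty_iff.1 (hs2.trans (ha.2 hT).le)⟩
    rw [← Set.inter_assoc]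
    exact ht1
  refine ⟨key, ?_, fun K g hg => ?_⟩
  · filter_upwards [key Set.univ] with f hf
    obtain ⟨-, -, -, q1, q2, -, q3, q4, -⟩ := hf
    rw [dimC, e34', Set.inter_univ] at q1
    rw [dimC, e34', Set.inter_univ, e37] at q2
    rw [dimC, e43, Set.inter_univ] at q3
    rw [dimC, e43, Set.inter_univ, e1621] at q4
    exact ⟨q1, q2, q3, q4⟩
  · filter_upwards [key (Set.range g)] with f hf
    obtain ⟨q0, -, -, -, -, q1, q2, -, -⟩ := hf
    refine ⟨q0.trans ?_, q1 (lip_null hg), q2.trans ?_⟩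
    · rw [← e34]
      exact tsub_le_tsub_right (lip_dim hg) _
    · rw [← e13]
      exact tsub_le_tsub_right (lip_dim hg) _

end Pool.Agent.Results.MP_6c8efb_pr.SpecialPoints
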