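import Pool.Agent.TH868.CT.Wien

/-!
Critical bond percolation in the half-plane `ℤ × ℕ`, with open edges on the negative half-axis and
closed edges on the positive half-axis: Wiener's test for the exploration path started at the origin.
A set `S` of points of the positive half-axis is visited at infinitely many points with probability
`1` or `0`, according to whether the sum of the capacities of the dyadic pieces of `S` is infinite or
finite.
-/

namespace Pool.Agent.Results.MP_6c8efb_pr.WienerTest

open MeasureTheory Finset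

/-- Edges of `ℤ × ℕ`: `(x, y, true)` joins `(x, y)` and `(x + 1, y)`; `(x, y, false)` joins
`(x, y)` and `(x, y + 1)`. -/
abbrev Edge := ℤ × ℕ × Bool

/-- Configurations. -/
abbrev Conf := Edge → Bool

/-- Independent fair coins on the edges (`p = 1 / 2`). -/
noncomputable def perc : Measure Conf :=
  Measure.infinitePi (fun _ : Edge => (PMF.uniformOfFintype Bool).toMeasure)

/-- The edges `[x, x + 1]` of the real axis are open for `x < 0` and closed for `x ≥ 0`; the other
edges follow the coins. -/
def IsOpen (ω : Conf) (e : Edge) : Prop :=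
  if e.2.1 = 0 ∧ e.2.2 = true then e.1 < 0 else ω e = true

/-- `u` and `v` are the left (lower) and right (upper) end of an open edge. -/
def Joined (ω : Conf) (u v : ℤ × ℕ) : Prop :=
  (v = (u.1 + 1, u.2) ∧ IsOpen ω (u.1, u.2, true)) ∨
    (v = (u.1, u.2 + 1) ∧ IsOpen ω (u.1, u.2, false))

/-- `C_-`: the negative half-axis and all open clusters attached to it, i.e. the set of all
vertices which are connected to the origin by open edges. -/
def Cminus (ω : Conf) : Set (ℤ × ℕ) := {v | Relation.EqvGen (Joined ω) (0, 0) v}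

/-- The points `x` of `S` which the exploration path visits: the boundary point `(x, 0)` belongs to
`C_-`. -/
def visited (ω : Conf) (S : Set ℤ) : Set ℤ := {x | x ∈ S ∧ ((x, 0) : ℤ × ℕ) ∈ Cminus ω}

/-- The kernel `(max(x, y) / (|x - y| + 1)) ^ (1 / 3)`. -/
noncomputable def kernel (x y : ℤ) : ℝ :=
  (((max x y : ℤ) : ℝ) / (((|x - y| : ℤ) : ℝ) + 1)) ^ ((1 : ℝ) / 3)

/-- The energy of a weight `m` on a finite set `T`. -/
noncomputable def energy (T : Finset ℤ) (m : ℤ → ℝ) : ℝ :=
  ∑ x ∈ T, ∑ y ∈ T, m x * m y * kernel x y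

/-- The capacity of `S`: the supremum of `1 / energy` over all probability weights on finite subsets
of `S`. -/
noncomputable def capacity (S : Set ℤ) : ℝ :=
  sSup {r | ∃ (T : Finset ℤ) (m : ℤ → ℝ), (∀ x ∈ T, x ∈ S ∧ 0 ≤ m x) ∧ ∑ x ∈ T, m x = 1 ∧
    r = 1 / energy T m}

/-- The part of `S` in `[2 ^ k, 2 ^ (k + 1))`. -/
def piece (S : Set ℤ) (k : ℕ) : Set ℤ := {x | x ∈ S ∧ (2 : ℤ) ^ k ≤ x ∧ x < 2 ^ (k + 1)}

/-- Wiener's test. -/
theorem result (S : Set ℤ) (hS : ∀ x ∈ S, 1 ≤ x) :
    (Summable (fun k : ℕ => capacity (piece S k)) → ∀ᵐ ω ∂perc, (visited ω S).Finite) ∧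
    (¬ Summable (fun k : ℕ => capacity (piece S k)) → ∀ᵐ ω ∂perc, (visited ω S).Infinite) :=
  ⟨TH868.CT.wiener_conv hS, TH868.CT.wiener_div⟩

end Pool.Agent.Results.MP_6c8efb_pr.WienerTest
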